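import Mathlib
import Pool.Agent.Q146.TallPyramid

/-!
# The Newton covering number of a right pyramid over the cube depends on its height

In every dimension `n + 1 ≥ 2`: two copies suffice for all large heights (the second copy lies on its
side: rotations push the unit `n`-cube strictly inside the prism over the unit `n`-cube), while for the
height `√(3n)/2` the apex and two opposite base vertices are pairwise at distance equal to the
diameter, so two copies are not enough.
-/

set_option autoImplicit false

namespace Pool.Agent.Results.MP_90eaab_co.HeightDependence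

open Set

/-- Euclidean space. -/
abbrev E (d : ℕ) : Type := EuclideanSpace ℝ (Fin d)

/-- The union of `n` congruent copies of `C` contains an open set that contains `C`. -/
def Covers {d : ℕ} (C : Set (E d)) (n : ℕ) : Prop :=
  ∃ (g : Fin n → (E d ≃ᵢ E d)) (U : Set (E d)), IsOpen U ∧ C ⊆ U ∧ U ⊆ ⋃ i, g i '' C

/-- The Newton covering number. -/
noncomputable def newton {d : ℕ} (C : Set (E d)) : ℕ := sInf {n : ℕ | Covers C n}

/-- The right pyramid of height `h` over the unit `n`-cube in `E (n + 1)`: the convex hull of the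
base `[0,1]^n × {0}` and the apex `(1/2, ..., 1/2, h)`. -/
def pyramid (n : ℕ) (h : ℝ) : Set (E (n + 1)) :=
  convexHull ℝ ({x | (∀ i : Fin n, 0 ≤ x i.castSucc ∧ x i.castSucc ≤ 1) ∧ x (Fin.last n) = 0} ∪
    {x | (∀ i : Fin n, x i.castSucc = 1 / 2) ∧ x (Fin.last n) = h})

/-- In every dimension `d = n + 1 ≥ 2`: `N*(P^d(h)) = 2` for all sufficiently large `h`, and
`N*(P^d(h)) ≥ 3` for `h = √(3(d-1))/2`. -/
theorem result : ∀ n : ℕ, 1 ≤ n →
    (∃ h₀ : ℝ, 0 < h₀ ∧ ∀ h, h₀ ≤ h → newton (pyramid n h) = 2) ∧
    3 ≤ newton (pyramid n (Real.sqrt (3 * n) / 2)) :=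
  fun _ hn => ⟨Q146.TallPyramid.newton_eq_two hn, Q146.TallPyramid.three_le_newton hn⟩

end Pool.Agent.Results.MP_90eaab_co.HeightDependence
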